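import Mathlib
import Pool.Agent.Q124.Lay.Geo
import Pool.Agent.W495.FM.HomDefs

/-!
# Jannsen's conjecture for schemes generated by products of varieties: statements
-/

set_option autoImplicit false

open CategoryTheory AlgebraicGeometry

namespace Pool.Agent.Q124.TB

open Polynomial Pool.Agent.H914 Pool.Agent.H914.VarClass Pool.Agent.H914.VarClass.Obj
  Pool.Agent.W492.BB Pool.Agent.Q124.Lay Pool.Agent.W495.FM

section

variable {k : Type} [Field k] {𝒱 : VarClass k} {C : TheoryData.{0, 0, 0} 𝒱 ℚ} {K : Type} [Field K]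
  (H : WeilTheoryData.{0, 0, 0} C K) (Fr : ∀ X : 𝒱.Obj, X ⟶ X) (Q : ℕ) (T : ℕ → Theory C)
  {V : Type} (S : Homology K V) (sch : 𝒱.Obj → V)

/-- The homology groups `H_i (Y, ℚ_ℓ(j))` of the smooth projective variety `Y` of dimension `d` are the
groups `H ^ (2 d - i) (Y)`, on which `Fr ^ *` is `Q ^ (d - j)` times the Frobenius. -/
def IsDual (Y : 𝒱.Obj) (i j : ℤ) (g : S.E (sch Y) i j → H.A Y) : Prop :=
  IsLin K g ∧ g.Injective ∧ Set.range g = H.gr Y (2 * Y.dim - i) ∧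
    ∀ e, H.up (Fr Y) (g e) = (Q : K) ^ (Y.dim - j) • g (S.frob (sch Y) i j e)

/-- The objects `V` are schemes of finite type over the field `k` with `Q` elements, `S` are their
motivic homology groups `CH_j (X, i - 2 j)_ℚ` and `ℓ`-adic homology groups `H_i (X, ℚ_ℓ(j))` with
coefficients extended to an algebraic closure `K` of `ℚ_ℓ`; `sch Y` is the scheme `Y`, and `Fr Y` its
Frobenius endomorphism, for the smooth projective varieties `Y` of the class `𝒱`; their higher Chow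
groups are `T m ^ c (Y) = CH ^ c (Y, m)_ℚ`, `m > 0`. Known facts: Frobenius commutes with all morphisms
and acts as multiplication by `Q ^ c` on `CH ^ c (Y)_ℚ` and `CH ^ c (Y, m)_ℚ`, on which correspondences
act; the Frobenius eigenvalues on `H ^ w (Y)` are Weil numbers (Deligne); Poincare duality identifies
homology and cohomology. -/
structure IsRealization : Prop where
  natural : ∀ {X Y : 𝒱.Obj} (f : X ⟶ Y), Fr X ≫ f = f ≫ Fr Y
  frobenius : ∀ X, IsFrobenius C (Fr X) Q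
  motivic : ∀ m, 0 < m → IsMotivic (T m)
  power : ∀ m, 0 < m → ∀ X, ActsAsPower (T m) (Fr X) Q
  pure : ∀ (Y : 𝒱.Obj) (w : ℕ) (ρ : K), IsEigenvalue H (Fr Y) w ρ → IsWeilNumber Q w ρ
  homology : IsHomology S
  negative : ∀ (X : V) (i j : ℤ), i < 2 * j → ∀ x : S.M X i j, x = 0
  higher : ∀ (Y : 𝒱.Obj) (j : ℤ) (m : ℕ), 0 < m → ∃ f : S.M (sch Y) (2 * j + m) j → (T m).M Y,
    IsAdd f ∧ f.Injective ∧ Set.range f = (T m).gr Y (Y.dim - j)
  chow : ∀ (Y : 𝒱.Obj) (j : ℤ), ∃ (f : S.M (sch Y) (2 * j) j → C.A Y)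
    (g : S.E (sch Y) (2 * j) j → H.A Y), IsAdd f ∧ f.Injective ∧
      Set.range f = C.gr Y (Y.dim - j) ∧ IsDual H Fr Q S sch Y (2 * j) j g ∧
      ∀ x, g (S.reg (sch Y) (2 * j) j x) = H.cl (f x)
  dual : ∀ (Y : 𝒱.Obj) (i j : ℤ), ∃ g, IsDual H Fr Q S sch Y i j g

end

section

variable {Ω : Type} [Field Ω] {V : Type} (S : Homology Ω V)

/-- Jannsen's conjecture `TB (X)` for one twist `j` and all degrees `i`: the regulators induce
isomorphisms of `CH_j (X, i - 2 j)_ℚ ⊗ Ω` with the Frobenius invariants in `H_i (X, ℚ_ℓ(j))`, and the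
eigenvalue one is semisimple. -/
def TBAt (X : V) (j : ℤ) : Prop :=
  ∀ i : ℤ,
    (∀ e, S.frob X i j e = e ↔ e ∈ Submodule.span Ω (Set.range (S.reg X i j))) ∧
    (∀ (r : ℕ) (x : Fin r → S.M X i j), LinearIndependent ℚ x →
      LinearIndependent Ω fun l => S.reg X i j (x l)) ∧
    ∀ e, S.frob X i j (S.frob X i j e - e) = S.frob X i j e - e → S.frob X i j e = e

end

section

variable {k : Type} [Field k] {𝒱 : VarClass k} {C : TheoryData.{0, 0, 0} 𝒱 ℚ} {K : Type} [Field K]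
  (H : WeilTheoryData.{0, 0, 0} C K) (Fr : ∀ X : 𝒱.Obj, X ⟶ X) {V : Type} (S : Homology K V)
  (sch : 𝒱.Obj → V)

/-- The products `A × Z` for which the theorem is about: `A`, `B`, `Z` are as in `IsTripleFor`, the
variety `Z` has level at most `e < (n + 1) δ`, and `TB (B × Z)` holds for the twists which belong to
cycles of codimension `c` with `2 c + ⌊e⌋ ≤ 2 dim Z + n`. -/
def IsProduct (δ : ℝ) (q s : ℕ) {I : Type} (f : I → ℤ[X]) (X : V) : Prop :=
  ∃ (n : ℕ) (e : ℝ) (A B Z : 𝒱.Obj), e < (n + 1) * δ ∧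
    IsTripleFor H (Fr A) (Fr B) (Fr Z) n q s f ∧ HasLevelLE H (Fr Z) (q ^ s) e ∧
    (∀ c : ℕ, 2 * c + ⌊e⌋₊ ≤ 2 * Z.dim + n → TBAt S (sch (B.prod Z)) (B.dim + Z.dim - c)) ∧
    X = sch (A.prod Z)

/-- The products `A × Z` with a narrow variety `Z`: `A`, `B`, `Z` are as in `IsTripleFor`, with
`n = 1`, the variety `Z` has the properties `IsNarrow`, `HasInverse` and `TB (Z)`, and `TB (B × Z)`
holds for the twist which belongs to divisors. -/
def IsNarrowProduct (δ δ₂ : ℝ) (q s : ℕ) {I : Type} (f : I → ℤ[X]) (X : V) : Prop :=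
  ∃ A B Z : 𝒱.Obj, 1 < 3 * δ ∧ IsTripleFor H (Fr A) (Fr B) (Fr Z) 1 q s f ∧
    IsNarrow H (Fr Z) (q ^ s) δ δ₂ ∧ HasInverse H Z ∧ TB S (sch Z) ∧
    TBAt S (sch (B.prod Z)) (B.dim + Z.dim - 1) ∧ X = sch (A.prod Z)

end

/-- `JannsenTheorem δ δ₂ q f`: for all `𝒱`, `C`, `H`, `T`, `S` as in `IsRealization`, over fields with
`q ^ s` elements, `TB (X)` holds for all schemes `X` of the class generated by the schemes `IsProduct`
and `IsNarrowProduct`. -/
def JannsenTheorem (δ δ₂ : ℝ) (q : ℕ) {I : Type} (f : I → ℤ[X]) : Prop :=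
  ∀ (k : Type) [Field k] (𝒱 : VarClass k) (C : TheoryData.{0, 0, 0} 𝒱 ℚ) [IsChow C]
    (K : Type) [Field K] [IsAlgClosed K] [CharZero K] (H : WeilTheoryData.{0, 0, 0} C K)
    [IsWeil H] (s : ℕ) (Fr : ∀ X : 𝒱.Obj, X ⟶ X) (T : ℕ → Theory C) (V : Type)
    (S : Homology K V) (sch : 𝒱.Obj → V), IsRealization H Fr (q ^ s) T S sch →
    ∀ X : V, Generated S (fun X => IsProduct H Fr S sch δ q s f X ∨
      IsNarrowProduct H Fr S sch δ δ₂ q s f X) X → TB S X

end Pool.Agent.Q124.TB
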