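import Mathlib
import Pool.Agent.W495.FM.HomDefs

/-!
# Regulators and eigenvalue one: linear algebra
-/

set_option autoImplicit false

namespace Pool.Agent.Q124.TB

open Module Polynomial

variable {K E G M N : Type} [Field K] [AddCommGroup E] [Module K E] [AddCommGroup G]
  [Module K G] [AddCommGroup M] [AddCommGroup N] [Module ℚ M] [Module ℚ N]

theorem isAdd_hom {f : M → N} (h : W495.FM.IsAdd f) : ∃ f' : M →ₗ[ℚ] N, ∀ x, f' x = f x :=
  ⟨(AddMonoidHom.mk' f h).toRatLinearMap, fun _ => rfl⟩

/-- Iterates and the shift by an eigenvalue. -/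
theorem iterate_shift (φ : E →ₗ[K] E) (F : G →ₗ[K] G) (g : E →ₗ[K] G) (a : K)
    (h : ∀ e, F (g e) = a • g (φ e)) (r : ℕ) (e : E) :
    (fun v => F v - a • v)^[r] (g e) = a ^ r • g ((fun v => φ v - v)^[r] e) := by
  induction r generalizing e with
  | zero => simp
  | succ r ih =>
    have hlin : ∀ (r : ℕ) (b : K) (v : G), (fun v => F v - a • v)^[r] (b • v) =
        b • (fun v => F v - a • v)^[r] v := by
      intro r b v
      induction r generalizing v with
      | zero => rfl
      | succ r ih => rw [Function.iterate_succ_apply, Function.iterate_succ_apply, map_smul,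
          smul_comm a b, ← smul_sub, ih]
    rw [Function.iterate_succ_apply, Function.iterate_succ_apply]
    have h1 : F (g e) - a • g e = a • g (φ e - e) := by
      rw [h, map_sub, smul_sub]
    rw [h1, hlin, ih, smul_smul, ← pow_succ']

/-- Semisimplicity of the eigenvalue one. -/
theorem fixed_of_iterate (φ : E →ₗ[K] E)
    (hs : ∀ e, φ (φ e - e) = φ e - e → φ e = e) (r : ℕ) (e : E)
    (h : (fun v => φ v - v)^[r] e = 0) : φ e = e := by
  induction r generalizing e with
  | zero =>
    rw [Function.iterate_zero_apply] at h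
    rw [h, map_zero]
  | succ r ih =>
    rw [Function.iterate_succ_apply] at h
    exact hs e (ih _ h)

/-- Semisimplicity, the other direction. -/
theorem semisimple_of (φ : E →ₗ[K] E)
    (hs : ∀ (r : ℕ) (e : E), (fun v => φ v - v)^[r] e = 0 → φ e = e) (e : E)
    (h : φ (φ e - e) = φ e - e) : φ e = e := by
  refine hs 2 e ?_
  rw [Function.iterate_succ_apply, Function.iterate_succ_apply, Function.iterate_zero_apply]
  rw [h, sub_self]

/-- A power of `Q` which is a Weil number. -/
theorem weight_eq [CharZero K] {Q w : ℕ} (hQ : 1 < Q) {c : ℤ} {χ : ℤ[X]}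
    (h : aeval ((Q : K) ^ c) χ = 0)
    (hχ : ∀ z : ℂ, aeval z χ = 0 → ‖z‖ ^ 2 = (Q : ℝ) ^ w) : 2 * c = w := by
  have h1 : aeval ((Q : ℚ) ^ c) χ = 0 := by
    have h2 : aeval (algebraMap ℚ K ((Q : ℚ) ^ c)) χ = 0 := by
      rw [map_zpow₀, map_natCast]
      exact h
    rw [aeval_algebraMap_apply] at h2
    exact (map_eq_zero_iff _ (algebraMap ℚ K).injective).1 h2
  have h3 : aeval ((Q : ℂ) ^ c) χ = 0 := by
    have h4 : ((Q : ℂ) ^ c) = algebraMap ℚ ℂ ((Q : ℚ) ^ c) := by
      rw [map_zpow₀, map_natCast]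
    rw [h4, aeval_algebraMap_apply, h1, map_zero]
  have h5 := hχ _ h3
  rw [norm_zpow, Complex.norm_natCast, ← zpow_natCast, ← zpow_natCast, ← zpow_mul] at h5
  have h6 : (1 : ℝ) < Q := by exact_mod_cast hQ
  have h7 := zpow_right_injective₀ (by linarith) (ne_of_gt h6) h5
  push_cast at h7
  linarith

end Pool.Agent.Q124.TB
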