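import Mathlib
import Pool.Agent.Q124.TB.Defs
import Pool.Agent.Q124.TB.Lin
import Pool.Agent.Q124.Lay.Theories

/-!
# Jannsen's conjecture for smooth projective varieties and theories of correspondences
-/

set_option autoImplicit false
set_option linter.unusedSectionVars false

open CategoryTheory AlgebraicGeometry

namespace Pool.Agent.Q124.TB

open Module Polynomial Pool.Agent.H914 Pool.Agent.H914.VarClass Pool.Agent.H914.VarClass.Obj
  Pool.Agent.W492.BB Pool.Agent.Q124.Lay Pool.Agent.W495.FM

variable {k : Type} [Field k] {𝒱 : VarClass k} {C : TheoryData.{0, 0, 0} 𝒱 ℚ} {K : Type} [Field K]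
  [CharZero K] {H : WeilTheoryData.{0, 0, 0} C K} [hC : IsChow C] [hH : IsWeil H]
  {Fr : ∀ X : 𝒱.Obj, X ⟶ X} {Q : ℕ} {T : ℕ → Theory C} {V : Type} {S : Homology K V}
  {sch : 𝒱.Obj → V}

/-- The linear map `Fr ^ *`. -/
noncomputable def upL (H : WeilTheoryData.{0, 0, 0} C K) (Fr : ∀ X : 𝒱.Obj, X ⟶ X) (Y : 𝒱.Obj) :
    H.A Y →ₗ[K] H.A Y := (H.pull (Fr Y)).toLinearMap

/-- There are no Frobenius invariants outside of the middle degree. -/
theorem no_fixed (hQ : 1 < Q) (R : IsRealization H Fr Q T S sch) (Y : 𝒱.Obj) {i j : ℤ}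
    (hij : i ≠ 2 * j) (e : S.E (sch Y) i j) (he : S.frob (sch Y) i j e = e) : e = 0 := by
  obtain ⟨g, ⟨g', hg'⟩, hinj, hrange, hfr⟩ := R.dual Y i j
  have h0 : g 0 = 0 := by rw [hg', map_zero]
  by_contra hne
  have h1 : g e ≠ 0 := fun h => hne (hinj (h.trans h0.symm))
  have h2 : g e ∈ H.gr Y (2 * Y.dim - i) := by
    have h3 : g e ∈ Set.range g := ⟨e, rfl⟩
    rwa [hrange] at h3
  rcases lt_or_ge (2 * (Y.dim : ℤ) - i) 0 with h3 | h3
  · rw [H.gr_neg Y _ h3, Submodule.mem_bot] at h2
    exact h1 h2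
  · obtain ⟨w, hw⟩ := Int.eq_ofNat_of_zero_le h3
    have h4 := hfr e
    rw [he] at h4
    rw [hw] at h2
    obtain ⟨χ, -, h5, h6⟩ := R.pure Y w ((Q : K) ^ (Y.dim - j)) ⟨g e, h2, h1, h4⟩
    have h7 := weight_eq hQ h5 h6
    apply hij
    linarith

/-- The eigenvalue one does not occur outside of the middle degree. -/
theorem no_iterate (hQ : 1 < Q) (R : IsRealization H Fr Q T S sch) (Y : 𝒱.Obj) {i j : ℤ}
    (hij : i ≠ 2 * j) (φ : S.E (sch Y) i j →ₗ[K] S.E (sch Y) i j)
    (hφ : ∀ e, S.frob (sch Y) i j e = φ e) (r : ℕ) (e : S.E (sch Y) i j)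
    (he : (fun v => φ v - v)^[r] e = 0) : e = 0 := by
  induction r generalizing e with
  | zero => exact he
  | succ r ih =>
    rw [Function.iterate_succ_apply] at he
    have h1 := ih _ he
    refine no_fixed hQ R Y hij e ?_
    rw [hφ]
    exact sub_eq_zero.1 h1

section

theorem ks_of_tbAt (hQ : 1 < Q) (R : IsRealization H Fr Q T S sch) (Y : 𝒱.Obj) (j : ℤ)
    (h : TBAt S (sch Y) j) : KS H Fr Q T Y (Y.dim - j) := by
  have hQ0 : (Q : K) ≠ 0 := by
    have : Q ≠ 0 := by omega
    exact_mod_cast this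
  obtain ⟨f, g, hf, hfi, hfr, ⟨⟨g', hg'⟩, hgi, hgr, hgf⟩, hcl⟩ := R.chow Y j
  obtain ⟨f', hf'⟩ := isAdd_hom hf
  obtain ⟨h1, h2, h3⟩ := h (2 * j)
  refine ⟨fun m hm a ha => ?_, fun r x hx hx' => ?_, fun r w hw hw' => ?_⟩
  · obtain ⟨f₂, hf₂, hf₂i, hf₂r⟩ := R.higher Y j m hm
    obtain ⟨f₂', hf₂'⟩ := isAdd_hom hf₂
    have ha' : a ∈ Set.range f₂ := by rwa [hf₂r]
    obtain ⟨x, rfl⟩ := ha'
    by_contra hne
    have hx : x ≠ 0 := by
      rintro rfl
      exact hne (by rw [← hf₂', map_zero])
    obtain ⟨-, h4, -⟩ := h (2 * j + m)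
    have h5 := h4 1 (fun _ => x) (linearIndependent_unique_iff.2 hx)
    have h6 : S.reg (sch Y) (2 * j + m) j x ≠ 0 :=
      linearIndependent_unique_iff.1 h5
    exact h6 (no_fixed hQ R Y (by omega) _ (R.homology.frob_reg _ _ _ _))
  · have hx2 : ∀ l, ∃ y, f y = x l := fun l => by
      have : x l ∈ Set.range f := by
        rw [hfr]
        exact hx l
      exact this
    choose y hy using hx2
    have h4 : LinearIndependent ℚ y := by
      refine LinearIndependent.of_comp f' ?_
      have h5 : (f' ∘ y) = x := funext fun l => by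
        rw [Function.comp_apply, hf', hy]
      rw [h5]
      exact hx'
    have h5 := (h2 r y h4).map' g' (LinearMap.ker_eq_bot.2 fun a b hab => hgi (by
      rw [hg', hg']
      exact hab))
    have h6 : (g' ∘ fun l => S.reg (sch Y) (2 * j) j (y l)) = fun l => H.cl (x l) := funext fun l => by
      rw [Function.comp_apply, ← hg', hcl, hy]
    rw [h6] at h5
    exact h5
  · have hw2 : w ∈ Set.range g := by
      rw [hgr]
      have h4 : (2 * (Y.dim : ℤ) - 2 * j) = 2 * (Y.dim - j) := by ring
      rw [h4]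
      exact hw
    obtain ⟨e, rfl⟩ := hw2
    obtain ⟨φ, hφ⟩ := R.homology.lin (sch Y) (2 * j) j
    have h4 := iterate_shift φ (upL H Fr Y) g' ((Q : K) ^ (Y.dim - j)) (fun e => by
      rw [← hφ, ← hg', ← hg']
      exact hgf e) r e
    rw [← hg'] at h4
    have h4 := hw'.symm.trans h4
    have h5 : (fun v => φ v - v)^[r] e = 0 := by
      have h6 : g' ((fun v => φ v - v)^[r] e) = 0 := by
        rcases smul_eq_zero.1 h4.symm with h7 | h7
        · exact absurd h7 (pow_ne_zero _ (zpow_ne_zero _ hQ0))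
        · exact h7
      rw [← hg'] at h6
      exact hgi (h6.trans (by rw [hg', map_zero]))
    have h6 := fixed_of_iterate φ (fun e he => by
      rw [← hφ]
      refine h3 e ?_
      rw [hφ, hφ]
      exact he) r e h5
    rw [← hφ] at h6
    have h7 := (h1 e).1 h6
    rw [hg']
    have h8 : Submodule.span K (Set.range (S.reg (sch Y) (2 * j) j)) ≤
        (Submodule.span K {a : H.A Y | ∃ x : C.A Y, C.Deg (Y.dim - j) x ∧ a = H.cl x}).comap g' := by
      refine Submodule.span_le.2 ?_
      rintro _ ⟨y, rfl⟩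
      refine Submodule.subset_span ⟨f y, ?_, ?_⟩
      · have : f y ∈ Set.range f := ⟨y, rfl⟩
        rwa [hfr] at this
      · rw [← hg', hcl]
    exact h8 h7

theorem tbAt_of_ks (hQ : 1 < Q) (R : IsRealization H Fr Q T S sch) (Y : 𝒱.Obj) (j : ℤ)
    (h : KS H Fr Q T Y (Y.dim - j)) : TBAt S (sch Y) j := by
  have hQ0 : (Q : K) ≠ 0 := by
    have : Q ≠ 0 := by omega
    exact_mod_cast this
  intro i
  obtain ⟨φ, hφ⟩ := R.homology.lin (sch Y) i j
  by_cases hij : i = 2 * j
  · subst hij
    obtain ⟨f, g, hf, hfi, hfr, ⟨⟨g', hg'⟩, hgi, hgr, hgf⟩, hcl⟩ := R.chow Y j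
    obtain ⟨f', hf'⟩ := isAdd_hom hf
    have hmem : ∀ e, g e ∈ H.gr Y (2 * (Y.dim - j)) := fun e => by
      have h4 : (2 * (Y.dim : ℤ) - 2 * j) = 2 * (Y.dim - j) := by ring
      rw [← h4]
      have : g e ∈ Set.range g := ⟨e, rfl⟩
      rwa [hgr] at this
    -- generalized eigenvectors are combinations of regulators
    have key : ∀ (r : ℕ) (e : S.E (sch Y) (2 * j) j), (fun v => φ v - v)^[r] e = 0 →
        e ∈ Submodule.span K (Set.range (S.reg (sch Y) (2 * j) j)) := by
      intro r e he
      have h1 := h.tate r (g e) (hmem e) (by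
        have h4 := iterate_shift φ (upL H Fr Y) g' ((Q : K) ^ (Y.dim - j)) (fun e => by
          rw [← hφ, ← hg', ← hg']
          exact hgf e) r e
        rw [← hg', he, map_zero, smul_zero] at h4
        exact h4)
      have h2 : Submodule.span K {a : H.A Y | ∃ x : C.A Y, C.Deg (Y.dim - j) x ∧ a = H.cl x} ≤
          (Submodule.span K (Set.range (S.reg (sch Y) (2 * j) j))).map g' := by
        refine Submodule.span_le.2 ?_
        rintro _ ⟨x, hx, rfl⟩
        have hx' : x ∈ Set.range f := by
          rw [hfr]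
          exact hx
        obtain ⟨y, rfl⟩ := hx'
        exact ⟨S.reg (sch Y) (2 * j) j y, Submodule.subset_span ⟨y, rfl⟩, by rw [← hg', hcl]⟩
      obtain ⟨e', he', he''⟩ := h2 h1
      rw [← hg'] at he''
      rwa [hgi he''] at he'
    have hfix : ∀ e ∈ Submodule.span K (Set.range (S.reg (sch Y) (2 * j) j)), φ e = e := by
      intro e he
      induction he using Submodule.span_induction with
      | mem x hx =>
        obtain ⟨y, rfl⟩ := hx
        rw [← hφ]
        exact R.homology.frob_reg _ _ _ _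
      | zero => rw [map_zero]
      | add x y _ _ hx hy => rw [map_add, hx, hy]
      | smul a x _ hx => rw [map_smul, hx]
    refine ⟨fun e => ⟨fun he => key 1 e ?_, fun he => ?_⟩, fun r x hx => ?_, fun e he => ?_⟩
    · rw [Function.iterate_one, ← hφ, he, sub_self]
    · rw [hφ]
      exact hfix e he
    · have h1 : LinearIndependent ℚ (f' ∘ x) := hx.map' f' (LinearMap.ker_eq_bot.2
        fun a b hab => hfi (by
          rw [← hf', ← hf']
          exact hab))
      have h2 := h.injective r (fun l => f (x l)) (fun l => by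
        have : f (x l) ∈ Set.range f := ⟨x l, rfl⟩
        rwa [hfr] at this) (by
        have h3 : (f' ∘ x) = fun l => f (x l) := funext fun l => hf' _
        rw [← h3]
        exact h1)
      refine LinearIndependent.of_comp g' ?_
      have h3 : (g' ∘ fun l => S.reg (sch Y) (2 * j) j (x l)) = fun l => H.cl (f (x l)) :=
        funext fun l => by rw [Function.comp_apply, ← hg', hcl]
      rw [h3]
      exact h2
    · rw [hφ]
      refine semisimple_of φ (fun r e he => hfix e (key r e he)) e ?_
      rw [← hφ, ← hφ, he]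
  · have hM : ∀ x : S.M (sch Y) i j, x = 0 := by
      intro x
      rcases lt_or_gt_of_ne hij with h1 | h1
      · exact R.negative _ _ _ h1 x
      · obtain ⟨m, hm⟩ := Int.eq_ofNat_of_zero_le (sub_nonneg.2 h1.le)
        have hi : i = 2 * j + (m : ℤ) := by
          linarith
        have hm0 : 0 < m := by
          rcases Nat.eq_zero_or_pos m with h2 | h2
          · exfalso
            rw [h2] at hi
            apply hij
            simpa using hi
          · exact h2
        subst hi
        obtain ⟨f₂, hf₂, hf₂i, hf₂r⟩ := R.higher Y j m hm0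
        obtain ⟨f₂', hf₂'⟩ := isAdd_hom hf₂
        have h2 : f₂ x ∈ (T m).gr Y (Y.dim - j) := by
          have : f₂ x ∈ Set.range f₂ := ⟨x, rfl⟩
          rwa [hf₂r] at this
        have h3 := h.higher m hm0 _ h2
        apply hf₂i
        rw [h3, ← hf₂', map_zero]
    have hspan : ∀ e ∈ Submodule.span K (Set.range (S.reg (sch Y) i j)), e = 0 := by
      intro e he
      have h1 : Submodule.span K (Set.range (S.reg (sch Y) i j)) ≤ ⊥ := by
        refine Submodule.span_le.2 ?_
        rintro _ ⟨x, rfl⟩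
        rw [hM x]
        have h2 := R.homology.add (sch Y) i j 0 0
        rw [add_zero] at h2
        exact left_eq_add.1 h2
      exact (Submodule.mem_bot K).1 (h1 he)
    refine ⟨fun e => ⟨fun he => ?_, fun he => ?_⟩, fun r x hx => ?_, fun e he => ?_⟩
    · rw [no_fixed hQ R Y hij e he]
      exact Submodule.zero_mem _
    · rw [hspan e he, hφ, map_zero]
    · rcases Nat.eq_zero_or_pos r with hr | hr
      · subst hr
        exact linearIndependent_empty_type
      · exact absurd (hM (x ⟨0, hr⟩)) (hx.ne_zero _)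
    · rw [hφ]
      have h1 := no_iterate hQ R Y hij φ hφ 2 e (by
        rw [Function.iterate_succ_apply, Function.iterate_succ_apply, Function.iterate_zero_apply,
          ← hφ, ← hφ, he, sub_self])
      rw [h1, map_zero]

end

end Pool.Agent.Q124.TB
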