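import Mathlib
import Pool.Agent.Q124.TB.Iff
import Pool.Agent.W495.FM.DimMain
import Pool.Agent.W495.FM.HomFive

/-!
# Jannsen's conjecture for schemes generated by products of varieties: proofs
-/

set_option autoImplicit false
set_option linter.unusedSectionVars false

open CategoryTheory AlgebraicGeometry

namespace Pool.Agent.Q124.TB

open Module Polynomial Pool.Agent.H914 Pool.Agent.H914.VarClass Pool.Agent.H914.VarClass.Obj
  Pool.Agent.W492.BB Pool.Agent.Q124.Lay Pool.Agent.W495.FM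

open Pool.Agent.Q219.UZ (BoundedAt MomentAt)

section

variable {k : Type} [Field k] {𝒱 : VarClass k} {C : TheoryData.{0, 0, 0} 𝒱 ℚ} {K : Type} [Field K]
  [CharZero K] [IsAlgClosed K] {H : WeilTheoryData.{0, 0, 0} C K} [hC : IsChow C] [hH : IsWeil H]
  {Fr : ∀ X : 𝒱.Obj, X ⟶ X} {T : ℕ → Theory C} {V : Type} {S : Homology K V}
  {sch : 𝒱.Obj → V} {I : Type} {f : I → ℤ[X]} {q s : ℕ} {δ δ₂ : ℝ}

theorem tbAt_iff {Q : ℕ} (hQ : 1 < Q) (R : IsRealization H Fr Q T S sch) (Y : 𝒱.Obj) (c : ℤ) :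
    TBAt S (sch Y) (Y.dim - c) ↔ KS H Fr Q T Y c := by
  constructor
  · intro h
    have h1 := ks_of_tbAt hQ R Y _ h
    rwa [sub_sub_cancel] at h1
  · intro h
    refine tbAt_of_ks hQ R Y _ ?_
    rwa [sub_sub_cancel]

theorem tb_iff {X : V} : TB S X ↔ ∀ j, TBAt S X j :=
  ⟨fun h j i => h i j, fun h i j => h j i⟩

theorem tb_iff_ks {Q : ℕ} (hQ : 1 < Q) (R : IsRealization H Fr Q T S sch) (Y : 𝒱.Obj) :
    TB S (sch Y) ↔ ∀ c, KS H Fr Q T Y c := by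
  rw [tb_iff]
  constructor
  · intro h c
    exact (tbAt_iff hQ R Y c).1 (h _)
  · intro h j
    have h1 := (tbAt_iff hQ R Y (Y.dim - j)).2 (h _)
    rwa [sub_sub_cancel] at h1

theorem tb_product (hB : ∀ s, 0 < s → BoundedAt f q s δ) (hδ0 : 0 < δ) (hδ1 : δ ≤ 1) (hq : 1 < q)
    (R : IsRealization H Fr (q ^ s) T S sch) {X : V} (h : IsProduct H Fr S sch δ q s f X) :
    TB S X := by
  obtain ⟨n, e, A, B, Z, he, h1, h2, h3, rfl⟩ := h
  have hQ : 1 < q ^ s := Nat.one_lt_pow h1.pos.ne' hq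
  rw [tb_iff_ks hQ R]
  intro c
  refine ks_of hB hδ0 hδ1 hq (frobFamily R.natural R.frobenius) R.motivic R.power he h1 h2 c
    fun c' _ h5 => ?_
  rw [← tbAt_iff hQ R, Obj.dim_prod]
  have h6 := h3 c' h5
  push_cast
  exact h6

theorem tb_narrow (hB : ∀ s, 0 < s → BoundedAt f q s δ)
    (hM : ∀ s, 0 < s → MomentAt f q s δ₂) (hδ0 : 0 < δ) (hδ₂ : 0 < δ₂) (hq : 1 < q)
    (R : IsRealization H Fr (q ^ s) T S sch) {X : V}
    (h : IsNarrowProduct H Fr S sch δ δ₂ q s f X) : TB S X := by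
  obtain ⟨A, B, Z, hδ3, h1, h2, h3, h4, h5, rfl⟩ := h
  have hQ : 1 < q ^ s := Nat.one_lt_pow h1.pos.ne' hq
  rw [tb_iff_ks hQ R]
  intro c
  refine ks_narrow hB hM hδ0 hδ₂ hδ3 hq (frobFamily R.natural R.frobenius) R.motivic R.power h1 h2
    h3 c (fun c' _ _ => (tb_iff_ks hQ R Z).1 h4 _) ?_
  rw [← tbAt_iff hQ R, Obj.dim_prod]
  push_cast
  exact h5

end

theorem jannsenTheorem {I : Type} {f : I → ℤ[X]} {q : ℕ} {δ δ₂ : ℝ}
    (hB : ∀ s, 0 < s → BoundedAt f q s δ) (hM : ∀ s, 0 < s → MomentAt f q s δ₂) (hδ0 : 0 < δ)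
    (hδ1 : δ ≤ 1) (hδ₂ : 0 < δ₂) (hq : 1 < q) : JannsenTheorem δ δ₂ q f := by
  intro k _ 𝒱 C _ K _ _ _ H _ s Fr T V S sch R X hX
  refine tb_generated R.homology (fun X hX => ?_) hX
  rcases hX with hX | hX
  · exact tb_product hB hδ0 hδ1 hq R hX
  · exact tb_narrow hB hM hδ0 hδ₂ hq R hX

end Pool.Agent.Q124.TB
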